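import Pool.Agent.H.MP_374efc_lc.En.T2e
import Pool.Agent.H.MP_374efc_lc.Asm.Cod

/-!
# MP_374efc_lc: normal forms with a formula whose first entry is its depth: first letters, the period `n`
-/

set_option autoImplicit false

namespace D0L

namespace En

open Function

variable {n N : ℕ} {H : Fin n → List (Fin n)} {b0 : List (Fin n)}

/-- The first letter of the image. -/
noncomputable def fl (hne : ∀ a, H a ≠ []) (a : Fin n) : Fin n := (H a).head (hne a)

theorem head_it (hne : ∀ a, H a ≠ []) (k : ℕ) : ∀ (a : Fin n) (s : List (Fin n)),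
    ∃ s', it H k (a :: s) = ((fl hne)^[k] a) :: s' := by
  induction k with
  | zero => intro a s; exact ⟨s, rfl⟩
  | succ k ih =>
    intro a s
    have h1 : app H (a :: s) = fl hne a :: ((H a).tail ++ app H s) := by
      rw [app_cons, fl, ← List.cons_append, List.cons_head_tail]
    rw [it_succ', h1, iterate_succ_apply]
    exact ih _ _

/-- The data of the first letters. -/
structure FD (hne : ∀ a, H a ≠ []) (b0 : List (Fin n)) (a0 : Fin n) : Prop where
  tok : ∀ k, ∃ s, it H k b0 = ((fl hne)^[k] a0) :: s
  per : minimalPeriod (fl hne) a0 = n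

theorem FD.mod {hne : ∀ a, H a ≠ []} {a0 : Fin n} (hd : FD hne b0 a0) {k l : ℕ}
    {s t : List (Fin n)} (h : it H k b0 ++ s = it H l b0 ++ t) : k % n = l % n := by
  obtain ⟨s1, h1⟩ := hd.tok k
  obtain ⟨s2, h2⟩ := hd.tok l
  rw [h1, h2] at h
  have h3 : (fl hne)^[k] a0 = (fl hne)^[l] a0 := by
    simpa using congrArg List.head? h
  have hn : 0 < n := Fin.pos a0
  have h4 : ∀ m, (fl hne)^[m % n] a0 = (fl hne)^[m] a0 := by
    intro m
    have := iterate_mod_minimalPeriod_eq (f := fl hne) (x := a0) (n := m)
    rwa [hd.per] at this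
  rw [← h4 k, ← h4 l] at h3
  have h5 := iterate_injOn_Iio_minimalPeriod (f := fl hne) (x := a0)
  rw [hd.per] at h5
  exact h5 (Set.mem_Iio.2 (Nat.mod_lt _ hn)) (Set.mem_Iio.2 (Nat.mod_lt _ hn)) h3

theorem exists_fd (hnf : NF H b0 N) (hne : ∀ a, H a ≠ []) {d : ℕ} (hd : 0 < d)
    {u : List (Fin n)} (hu : it H d b0 = b0 ++ u) : ∃ a0, FD hne b0 a0 := by
  obtain ⟨f, hf, hf'⟩ := hnf.first
  obtain ⟨a0, s0, hs0⟩ := List.exists_cons_of_ne_nil hnf.ne
  have hn : 0 < n := Fin.pos a0
  have htok : ∀ k, ∃ s, it H k b0 = ((fl hne)^[k] a0) :: s := by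
    intro k
    rw [hs0]
    exact head_it hne k a0 s0
  have hfi : ∀ i : Fin n, f i = (fl hne)^[(i : ℕ)] a0 := by
    intro i
    obtain ⟨s, hs⟩ := hf' i
    obtain ⟨s', hs'⟩ := htok i
    rw [hs] at hs'
    simpa using congrArg List.head? hs'
  have hpd : IsPeriodicPt (fl hne) d a0 := by
    obtain ⟨s', hs'⟩ := htok d
    rw [hu, hs0] at hs'
    have := congrArg List.head? hs'
    simp only [List.cons_append, List.head?_cons, Option.some.injEq] at this
    exact this.symm
  have hinj : ∀ i < n, ∀ j < n, (fl hne)^[i] a0 = (fl hne)^[j] a0 → i = j := by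
    intro i hi j hj hij
    have h1 := hfi ⟨i, hi⟩
    have h2 := hfi ⟨j, hj⟩
    simp only at h1 h2
    rw [← h1, ← h2] at hij
    have := hf.1 hij
    simpa using this
  refine ⟨a0, htok, le_antisymm ?_ ?_⟩
  · have h1 : ((Finset.range (minimalPeriod (fl hne) a0)).image
        (fun i => (fl hne)^[i] a0)).card = minimalPeriod (fl hne) a0 := by
      rw [Finset.card_image_of_injOn, Finset.card_range]
      intro i hi j hj hij
      have hi' := Finset.mem_range.1 (Finset.mem_coe.1 hi)
      have hj' := Finset.mem_range.1 (Finset.mem_coe.1 hj)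
      exact iterate_injOn_Iio_minimalPeriod (Set.mem_Iio.2 hi') (Set.mem_Iio.2 hj') hij
    rw [← h1]
    simpa using Finset.card_le_univ ((Finset.range (minimalPeriod (fl hne) a0)).image
        (fun i => (fl hne)^[i] a0))
  · by_contra hlt
    push Not at hlt
    have h1 := hpd.minimalPeriod_pos hd
    have h2 : (fl hne)^[minimalPeriod (fl hne) a0] a0 = (fl hne)^[0] a0 :=
      isPeriodicPt_minimalPeriod _ _
    have h3 := hinj _ hlt 0 hn h2
    omega

/-- Two words without a prefix relation fork. -/
theorem fork {α : Type} : ∀ x y : List α, ¬ x <+: y → ¬ y <+: x →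
    ∃ t a b x' y', x = t ++ a :: x' ∧ y = t ++ b :: y' ∧ a ≠ b := by
  intro x
  induction x with
  | nil => intro y h _; exact absurd (List.nil_prefix) h
  | cons a x ih =>
    intro y h1 h2
    cases y with
    | nil => exact absurd (List.nil_prefix) h2
    | cons b y =>
      by_cases hab : a = b
      · subst hab
        have h3 : ¬ x <+: y := fun h => h1 (List.cons_prefix_cons.2 ⟨rfl, h⟩)
        have h4 : ¬ y <+: x := fun h => h2 (List.cons_prefix_cons.2 ⟨rfl, h⟩)
        obtain ⟨t, c, e, x', y', h5, h6, h7⟩ := ih y h3 h4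
        exact ⟨a :: t, c, e, x', y', by rw [h5]; rfl, by rw [h6]; rfl, h7⟩
      · exact ⟨[], a, b, x, y, rfl, rfl, hab⟩

/-- **The word `b_0` is an initial part of `b_n`.** -/
theorem pfx_n (hnf : NF H b0 N) (hne : ∀ a, H a ≠ []) {a0 : Fin n} (hd : FD hne b0 a0) {d : ℕ}
    (hdpos : 0 < d) {u : List (Fin n)} (hu : it H d b0 = b0 ++ u) : b0 <+: it H n b0 := by
  have hn : 0 < n := Fin.pos a0
  have hdn : d % n = 0 := by
    have h1 : it H d b0 ++ [] = it H 0 b0 ++ u := by rw [List.append_nil, hu]; rfl
    simpa using hd.mod h1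
  by_contra hnp
  have hnp' : ¬ it H n b0 <+: b0 := by
    intro h1
    have h2 := length_it_mono hne b0 (Nat.zero_le n)
    rw [it_zero] at h2
    have h3 := h1.eq_of_length (le_antisymm h1.length_le h2)
    apply hnp
    rw [h3]
  obtain ⟨t, a, b, x', y', hx, hy, hab⟩ := fork _ _ hnp hnp'
  -- the common part is not empty
  obtain ⟨s0, hs0⟩ := hd.tok 0
  obtain ⟨sn, hsn⟩ := hd.tok n
  have hfix : (fl hne)^[n] a0 = a0 := by
    have := isPeriodicPt_minimalPeriod (fl hne) a0
    rw [hd.per] at this
    exact this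
  rw [hfix] at hsn
  rw [it_zero, iterate_zero, id] at hs0
  obtain ⟨t', rfl⟩ : ∃ t', t = a0 :: t' := by
    cases t with
    | nil =>
      exfalso
      rw [hs0] at hx
      rw [hsn] at hy
      simp only [List.nil_append, List.cons.injEq] at hx hy
      exact hab (hx.1.symm.trans hy.1)
    | cons c t =>
      rw [hs0] at hx
      simp only [List.cons_append, List.cons.injEq] at hx
      exact ⟨t, by rw [hx.1]⟩
  -- the image of the common part is longer
  have hgrow : 2 ≤ (it H n [a0]).length := by
    by_contra hlt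
    push Not at hlt
    obtain ⟨s, hs⟩ := head_it hne n a0 []
    rw [hfix] at hs
    have hs' : it H n [a0] = [a0] := by
      rw [hs] at hlt ⊢
      simp only [List.length_cons] at hlt
      have : s = [] := List.length_eq_zero_iff.1 (by omega)
      rw [this]
    have hm : ∀ m, it H (n * m) [a0] = [a0] := by
      intro m
      induction m with
      | zero => rfl
      | succ m ih => rw [Nat.mul_succ, it_add, hs', ih]
    obtain ⟨q, hq⟩ := hnf.gr a0 2
    have h1 : (it H q [a0]).length ≤ (it H (n * q) [a0]).length :=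
      length_it_mono hne _ (Nat.le_mul_of_pos_left q hn)
    rw [hm] at h1
    simp at h1
    omega
  set t := a0 :: t' with ht
  have hlen : (t ++ [b]).length ≤ (it H n t).length := by
    have h1 : it H n t = it H n [a0] ++ it H n t' := by
      rw [ht, ← it_append]
      rfl
    have h2 := length_it_mono hne t' (Nat.zero_le n)
    rw [it_zero] at h2
    rw [h1]
    simp only [ht, List.length_append, List.length_cons, List.length_nil]
    omega
  have hy1 : t ++ [b] <+: it H n b0 := by
    rw [hy]
    exact ⟨y', by simp⟩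
  have hy2 : it H n t <+: it H n b0 := by
    have h1 := congrArg (it H n) hx
    rw [h1, it_append]
    exact List.prefix_append _ _
  have hy3 : t ++ [b] <+: it H n t := List.prefix_of_prefix_length_le hy1 hy2 hlen
  have hall : ∀ j, t ++ [b] <+: it H (n * (j + 1)) b0 := by
    intro j
    induction j with
    | zero => simpa using hy1
    | succ j ih =>
      rw [show n * (j + 1 + 1) = n + n * (j + 1) by ring, it_add]
      have h1 := OE.it_prefix (h := H) n ih
      rw [it_append] at h1
      exact hy3.trans ((List.prefix_append _ _).trans h1)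
  obtain ⟨c, hc⟩ : ∃ c, d = n * (c + 1) := by
    obtain ⟨c, hc⟩ := Nat.dvd_of_mod_eq_zero hdn
    cases c with
    | zero => omega
    | succ c => exact ⟨c, hc⟩
  have h1 := hall c
  rw [← hc, hu, hx] at h1
  obtain ⟨z, hz⟩ := h1
  simp only [List.append_assoc, List.cons_append] at hz
  have h2 := List.append_cancel_left hz
  simp only [List.nil_append, List.cons.injEq] at h2
  exact hab h2.1.symm

end En

end D0L
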