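import Pool.Agent.H.MP_374efc_lc.En.Nf1
import Pool.Agent.H.MP_374efc_lc.Oe.Ge
import Pool.Agent.H.MP_374efc_lc.Asm.Bridge

/-!
# MP_374efc_lc: normal forms with a formula whose first entry is its depth: the relation graph of the tokens
-/

set_option autoImplicit false

namespace D0L

namespace En

variable {n N : ℕ} {H : Fin n → List (Fin n)} {b0 : List (Fin n)}

/-- The product of the words `b_j`, `j` running through the list. -/
def pr (H : Fin n → List (Fin n)) (b0 : List (Fin n)) (V : List ℕ) : List (Fin n) :=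
  (V.map (fun j => it H j b0)).flatten

theorem pr_cons (i : ℕ) (V : List ℕ) : pr H b0 (i :: V) = it H i b0 ++ pr H b0 V := by
  rw [pr, List.map_cons, List.flatten_cons, pr]

theorem pr_append (U V : List ℕ) : pr H b0 (U ++ V) = pr H b0 U ++ pr H b0 V := by
  rw [pr, List.map_append, List.flatten_append, pr, pr]

/-- Products of the first `N` words. -/
def TM (N : ℕ) (H : Fin n → List (Fin n)) (b0 x : List (Fin n)) : Prop :=
  ∃ V : List ℕ, (∀ v ∈ V, v < N) ∧ x = pr H b0 V

theorem TM.nil : TM N H b0 [] := ⟨[], by simp, rfl⟩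

theorem TM.append {x y : List (Fin n)} (hx : TM N H b0 x) (hy : TM N H b0 y) :
    TM N H b0 (x ++ y) := by
  obtain ⟨U, hU, rfl⟩ := hx
  obtain ⟨V, hV, rfl⟩ := hy
  refine ⟨U ++ V, ?_, (pr_append U V).symm⟩
  intro v hv
  rcases List.mem_append.1 hv with h | h
  · exact hU v h
  · exact hV v h

/-- The relation of the normal form, with its first factor. -/
structure RD (N : ℕ) (H : Fin n → List (Fin n)) (b0 : List (Fin n)) (j1 : ℕ) (rest : List ℕ) :
    Prop where
  lt1 : j1 < N
  ltr : ∀ j ∈ rest, j < N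
  rel : it H N b0 = ((j1 :: rest).map (fun j => it H j b0)).flatten

theorem RD.tm {j1 : ℕ} {rest : List ℕ} (hr : RD N H b0 j1 rest) (k : ℕ) :
    TM N H b0 (it H k b0) := by
  have hlt : ∀ j ∈ j1 :: rest, j < N := by
    intro j hj
    rcases List.mem_cons.1 hj with rfl | hj
    · exact hr.lt1
    · exact hr.ltr j hj
  obtain ⟨V, hV, hV'⟩ := OE.refine_rel hlt hr.rel 0 k (Nat.zero_le _)
  exact ⟨V, fun v hv => by have := (hV v hv).2; omega, hV'⟩

theorem RD.tmf {j1 : ℕ} {rest : List ℕ} (hr : RD N H b0 j1 rest) (V : List ℕ) (m : ℕ) :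
    TM N H b0 ((V.map (fun j => it H (j + m) b0)).flatten) := by
  induction V with
  | nil => exact TM.nil
  | cons v V ih =>
    rw [List.map_cons, List.flatten_cons]
    exact (hr.tm _).append ih

/-- The word `b_k` is a product of words `b_j`, `j < N`, with first factor `b_i`. -/
def HP (N : ℕ) (H : Fin n → List (Fin n)) (b0 : List (Fin n)) (k i : ℕ) : Prop :=
  ∃ V : List ℕ, (∀ v ∈ V, v < N) ∧ it H k b0 = pr H b0 (i :: V)

theorem RD.hp {j1 : ℕ} {rest : List ℕ} (hr : RD N H b0 j1 rest) (k : ℕ) :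
    ∀ i, j1 ≤ i → i < N → i ≤ k → (N - j1) ∣ (k - i) → HP N H b0 k i := by
  induction k using Nat.strong_induction_on with
  | _ k ih =>
    intro i h1 h2 h3 h4
    have hj := hr.lt1
    by_cases hk : k < N
    · have h5 : k - i = 0 := Nat.eq_zero_of_dvd_of_lt h4 (by omega)
      obtain rfl : k = i := by omega
      exact ⟨[], by simp, by rw [pr_cons]; simp [pr]⟩
    · push Not at hk
      have h5 : N - j1 ≤ k - i := Nat.le_of_dvd (by omega) h4
      have h6 : (N - j1) ∣ (k - (N - j1) - i) := by
        have h7 := Nat.dvd_sub h4 (dvd_refl (N - j1))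
        rwa [show k - i - (N - j1) = k - (N - j1) - i by omega] at h7
      obtain ⟨V, hV, hV'⟩ := ih (k - (N - j1)) (by omega) i h1 h2 (by omega) h6
      have h8 := rel_shift hr.rel (k - N)
      rw [List.map_cons, List.flatten_cons, show N + (k - N) = k by omega,
        show j1 + (k - N) = k - (N - j1) by omega, hV'] at h8
      obtain ⟨W, hW, hW'⟩ := hr.tmf rest (k - N)
      rw [hW'] at h8
      refine ⟨V ++ W, ?_, ?_⟩
      · intro v hv
        rcases List.mem_append.1 hv with h | h
        · exact hV v h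
        · exact hW v h
      · rw [h8, pr_cons, pr_cons, pr_append, List.append_assoc]

/-- Two tokens are linked. -/
def Lk (N : ℕ) (H : Fin n → List (Fin n)) (b0 : List (Fin n)) (i j : ℕ) : Prop :=
  i < N ∧ j < N ∧ ∃ U V : List ℕ, (∀ x ∈ U, x < N) ∧ (∀ x ∈ V, x < N) ∧
    pr H b0 (i :: V) = pr H b0 (j :: U)

theorem Lk.symm {i j : ℕ} (h : Lk N H b0 i j) : Lk N H b0 j i := by
  obtain ⟨h1, h2, U, V, h3, h4, h5⟩ := h
  exact ⟨h2, h1, V, U, h4, h3, h5.symm⟩

/-- A path of links of a given length to a token of small index. -/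
def Pth (N : ℕ) (H : Fin n → List (Fin n)) (b0 : List (Fin n)) : ℕ → ℕ → Prop
  | 0, k => k < n
  | m + 1, k => ∃ k', Lk N H b0 k k' ∧ Pth N H b0 m k'

theorem lgood_of_pth (hall : ∀ k < N, ∃ m, Pth N H b0 m k) : Cdm.LGood H b0 N := by
  classical
  set r : ℕ → ℕ := fun k => if h : ∃ m, Pth N H b0 m k then Nat.find h else 0 with hr
  have key : ∀ k, n ≤ k → k < N → ∃ k', Lk N H b0 k k' ∧ r k' < r k := by
    intro k hk1 hk2
    have h := hall k hk2
    have h1 := Nat.find_spec h
    have h2 : r k = Nat.find h := by simp only [hr]; rw [dif_pos h]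
    obtain ⟨m, hm⟩ : ∃ m, m = Nat.find h := ⟨_, rfl⟩
    rw [← hm] at h1 h2
    cases m with
    | zero =>
      have : k < n := h1
      omega
    | succ m =>
      obtain ⟨k', h3, h4⟩ := h1
      refine ⟨k', h3, ?_⟩
      have h5 : ∃ m, Pth N H b0 m k' := ⟨m, h4⟩
      have h6 : r k' = Nat.find h5 := by simp only [hr]; rw [dif_pos h5]
      have h7 := Nat.find_min' h5 h4
      omega
  refine ⟨fun k => if h : ∃ k', Lk N H b0 k k' ∧ r k' < r k then h.choose else 0, r, ?_⟩
  intro k hk1 hk2
  have h := key k hk1 hk2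
  simp only
  rw [dif_pos h]
  obtain ⟨⟨h1, h2, U, V, h3, h4, h5⟩, h6⟩ := h.choose_spec
  refine ⟨h2, h6, U, V, h3, h4, ?_⟩
  rw [pw_eq, pw_eq]
  exact h5

theorem Pth.step {k k' : ℕ} (h : Lk N H b0 k k') (h' : ∃ m, Pth N H b0 m k') :
    ∃ m, Pth N H b0 m k := by
  obtain ⟨m, hm⟩ := h'
  exact ⟨m + 1, k', h, hm⟩

/-- **The relation graph is connected to the first `n` tokens.** -/
theorem lgood (hnf : NF H b0 N) (hdf : DF H b0) : Cdm.LGood H b0 N := by
  have hne : ∀ a, H a ≠ [] := fun a => ne_of_inj hnf.inj a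
  -- the formula at level 0
  obtain ⟨k, d, js, hlt, hrel⟩ := hdf
  have hdpos : 0 < d := by
    have := hlt 0 (by simp)
    omega
  have hinjk : Function.Injective (it H k) := hnf.inj.iterate k
  have hu : it H d b0 = b0 ++ (js.map (fun j => it H j b0)).flatten := by
    apply hinjk
    rw [← it_add, hrel, List.map_cons, List.flatten_cons, it_append, it_flatten, List.map_map,
      Nat.add_zero]
    congr 2
    apply List.map_congr_left
    intro j _
    simp only [Function.comp]
    rw [← it_add]
  have hltj : ∀ j ∈ js, j < d := fun j hj => hlt j (List.mem_cons_of_mem _ hj)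
  have hNd : N ≤ d := by
    apply hnf.least
    refine ⟨0 :: js, by simp, hlt, ?_⟩
    rw [hu, List.map_cons, List.flatten_cons, it_zero]
  obtain ⟨a0, hd⟩ := exists_fd hnf hne hdpos hu
  have hn : 0 < n := Fin.pos a0
  have hp := pfx_n hnf hne hd hdpos hu
  -- Lemma T with the period `n`
  obtain ⟨p, js0, hT⟩ := OE.lemT0e (Λ := ∑ a, (H a).length) (fun a => Finset.single_le_sum
    (f := fun a => (H a).length) (fun _ _ => Nat.zero_le _) (Finset.mem_univ a)) hne
    ⟨N, hnf.rel⟩ hn hp
  -- the relation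
  obtain ⟨L, hL0, hLlt, hLrel⟩ := hnf.rel
  obtain ⟨j1, rest, rfl⟩ := List.exists_cons_of_ne_nil hL0
  have hr : RD N H b0 j1 rest := ⟨hLlt j1 (by simp), fun j hj => hLlt j (List.mem_cons_of_mem _ hj),
    hLrel⟩
  have hj1 := hr.lt1
  have hpne : ∀ i, it H i b0 ≠ [] := by
    intro i
    obtain ⟨s, hs⟩ := hd.tok i
    rw [hs]
    simp
  -- divisibility
  have hNj : N % n = j1 % n := by
    apply hd.mod (s := []) (t := (rest.map (fun j => it H j b0)).flatten)
    rw [List.append_nil, hLrel, List.map_cons, List.flatten_cons]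
  have hi1 : n ∣ N - j1 := (Nat.modEq_iff_dvd' hj1.le).1 hNj.symm
  have hdn : n ∣ d := by
    apply Nat.dvd_of_mod_eq_zero
    have := hd.mod (k := d) (l := 0) (s := []) (t := (js.map (fun j => it H j b0)).flatten)
      (by rw [List.append_nil, hu, it_zero])
    simpa using this
  -- steps of length n inside [j1, N)
  have hstep : ∀ i, j1 ≤ i → i + n < N → Lk N H b0 i (i + n) := by
    intro i h1 h2
    set m := i + (N - j1) * (p + 1) - p with hm
    have h3 : p ≤ (N - j1) * (p + 1) := by
      have : 1 * (p + 1) ≤ (N - j1) * (p + 1) := Nat.mul_le_mul_right _ (by omega)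
      omega
    have h4 : p + m = i + (N - j1) * (p + 1) := by omega
    obtain ⟨V, hV, hV'⟩ := hr.hp (p + m) i h1 (by omega) (by omega)
      (by rw [h4, Nat.add_sub_cancel_left]; exact dvd_mul_right _ _)
    obtain ⟨V2, hV2, hV2'⟩ := hr.hp (p + m + n) (i + n) (by omega) h2 (by omega)
      (by rw [h4, show i + (N - j1) * (p + 1) + n - (i + n) = (N - j1) * (p + 1) by omega]
          exact dvd_mul_right _ _)
    have h5 : it H (p + m + n) b0 = it H (p + m) b0 ++
        (js0.map (fun j => it H (j + m) b0)).flatten := by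
      have h6 := congrArg (it H m) hT
      rw [it_append, it_flatten, List.map_map, ← it_add, ← it_add] at h6
      rw [show p + m + n = m + (p + n) by ring, h6, Nat.add_comm p m]
      congr 2
      apply List.map_congr_left
      intro j _
      simp only [Function.comp]
      rw [← it_add, Nat.add_comm]
    obtain ⟨W, hW, hW'⟩ := hr.tmf js0 m
    rw [hV2', hV', hW', pr_cons i V, List.append_assoc, ← pr_append, ← pr_cons] at h5
    refine ⟨by omega, h2, V2, V ++ W, hV2, ?_, h5.symm⟩
    intro x hx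
    rcases List.mem_append.1 hx with h | h
    · exact hV x h
    · exact hW x h
  -- the link of a token into [j1, N)
  have hlink : ∀ m, m < N → ∃ i, j1 ≤ i ∧ i < N ∧ Lk N H b0 m i ∧ i % n = m % n := by
    intro m hm
    set i := j1 + (d + m - j1) % (N - j1) with hi
    have h0 : (d + m - j1) % (N - j1) < N - j1 := Nat.mod_lt _ (by omega)
    have h0' : (d + m - j1) % (N - j1) ≤ d + m - j1 := Nat.mod_le _ _
    have h2 : (N - j1) ∣ (d + m - i) := by
      have h3 : d + m - i = (d + m - j1) - (d + m - j1) % (N - j1) := by omega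
      rw [h3]
      exact Nat.dvd_sub_mod _
    obtain ⟨V, hV, hV'⟩ := hr.hp (d + m) i (by omega) (by omega) (by omega) h2
    obtain ⟨W, hW, hW'⟩ := hr.tmf js m
    have h5 : it H (d + m) b0 = it H m b0 ++ (js.map (fun j => it H (j + m) b0)).flatten := by
      have h6 := congrArg (it H m) hu
      rw [it_append, it_flatten, List.map_map, ← it_add] at h6
      rw [Nat.add_comm d m, h6]
      congr 2
      apply List.map_congr_left
      intro j _
      simp only [Function.comp]
      rw [← it_add, Nat.add_comm]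
    rw [hW', hV'] at h5
    refine ⟨i, by omega, by omega, ⟨hm, by omega, V, W, hV, hW, ?_⟩, ?_⟩
    · rw [pr_cons m W]
      exact h5.symm
    · apply hd.mod (s := pr H b0 V) (t := pr H b0 W)
      rw [← pr_cons]
      exact h5
  -- walking inside [j1, N)
  have hdown : ∀ t i, j1 ≤ i → i + n * t < N → (∃ m, Pth N H b0 m i) →
      ∃ m, Pth N H b0 m (i + n * t) := by
    intro t
    induction t with
    | zero => intro i _ _ h; simpa using h
    | succ t ih =>
      intro i h1 h2 h3
      have h4 : i + n * (t + 1) = i + n * t + n := by ring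
      rw [h4] at h2 ⊢
      exact Pth.step (hstep (i + n * t) (by omega) h2).symm (ih i h1 (by omega) h3)
  have hup : ∀ t i, j1 ≤ i → i + n * t < N → (∃ m, Pth N H b0 m (i + n * t)) →
      ∃ m, Pth N H b0 m i := by
    intro t
    induction t with
    | zero => intro i _ _ h; simpa using h
    | succ t ih =>
      intro i h1 h2 h3
      have h4 : i + n * (t + 1) = i + n * t + n := by ring
      rw [h4] at h2 h3
      exact ih i h1 (by omega) (Pth.step (hstep (i + n * t) (by omega) h2) h3)
  apply lgood_of_pth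
  intro k hk
  by_cases hkn : k < n
  · exact ⟨0, hkn⟩
  push Not at hkn
  obtain ⟨i, h1, h2, h3, h4⟩ := hlink k hk
  have hrk : k % n < n := Nat.mod_lt _ hn
  obtain ⟨i', h5, h6, h7, h8⟩ := hlink (k % n) (by omega)
  have h9 : ∃ m, Pth N H b0 m i' := Pth.step h7.symm ⟨0, hrk⟩
  have h10 : i % n = i' % n := by rw [h4, h8, Nat.mod_mod]
  refine Pth.step h3 ?_
  rcases le_total i' i with h11 | h11
  · obtain ⟨t, ht⟩ := (Nat.modEq_iff_dvd' h11).1 h10.symm
    have h12 : i = i' + n * t := by omega
    rw [h12]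
    exact hdown t i' h5 (by omega) h9
  · obtain ⟨t, ht⟩ := (Nat.modEq_iff_dvd' h11).1 h10
    have h12 : i' = i + n * t := by omega
    rw [h12] at h9
    exact hup t i h1 (by omega) h9

end En

end D0L
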