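import Pool.Agent.H.MP_374efc_lc.En.Nf2
import Pool.Agent.H.MP_374efc_lc.Asm.Rev

/-!
# MP_374efc_lc: normal forms with formulas whose first / last entry is the depth consist of letters
-/

set_option autoImplicit false

namespace D0L

namespace En

variable {n N : ℕ} {H : Fin n → List (Fin n)} {b0 : List (Fin n)}

theorem letters_of_lg (hnf : NF H b0 N) (hgl : Cdm.LGood H b0 N)
    (hgr : Cdm.LGood (Cdm.rv H) b0.reverse N) (i : ℕ) (hi : i < n) : (it H i b0).length = 1 := by
  have hne : ∀ a, H a ≠ [] := fun a => ne_of_inj hnf.inj a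
  have hn : 0 < n := by omega
  obtain ⟨js, h1, h2, h3⟩ := hnf.rel
  have h0 := zero_mem_least hnf.inj hnf.least h1 h2 h3
  have hlc : Cdm.LC H b0 N := by
    refine ⟨js, h2, h0, ?_, ?_⟩
    · by_contra hlen
      have hlen1 : js.length = 1 := by
        have := List.length_pos_of_ne_nil h1
        omega
      obtain ⟨j, rfl⟩ := List.length_eq_one_iff.1 hlen1
      have hj : j < N := h2 j (by simp)
      apply it_ne_of_gr hne hnf.gr hnf.ne hj
      rw [h3]
      simp
    · rw [sq_eq, pw_eq, h3]
  obtain ⟨f, hf, hf'⟩ := hnf.first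
  obtain ⟨f2, hf2, hf2'⟩ := hnf.last
  have hfirst : ∀ i j : Fin n, (Cdm.sq H b0 i).head? = (Cdm.sq H b0 j).head? → i = j := by
    intro i j hij
    obtain ⟨s, hs⟩ := hf' i
    obtain ⟨s', hs'⟩ := hf' j
    rw [sq_eq, sq_eq, hs, hs'] at hij
    simp only [List.head?_cons, Option.some.injEq] at hij
    exact hf.1 hij
  have hlast : ∀ i j : Fin n, (Cdm.sq H b0 i).getLast? = (Cdm.sq H b0 j).getLast? → i = j := by
    intro i j hij
    obtain ⟨s, hs⟩ := hf2' i
    obtain ⟨s', hs'⟩ := hf2' j
    rw [sq_eq, sq_eq, hs, hs'] at hij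
    simp only [List.getLast?_append, List.getLast?_singleton, Option.some_or,
      Option.some.injEq] at hij
    exact hf2.1 hij
  have hu : IsUnit (Cdm.WM H b0).det := by
    have h4 : Cdm.WM H b0 =
        (Matrix.of fun (i a : Fin n) => ((it H i b0).count a : ℤ)).transpose := by
      ext a i
      simp only [Cdm.WM, Cdm.par, Matrix.transpose_apply, Matrix.of_apply]
      rw [sq_eq]
    rw [h4, Matrix.det_transpose]
    exact hnf.unit
  have hg : ∀ a : Fin n, FreeGroup.of a ∈ Subgroup.closure
      (Set.range (fun k : Fin N => ((Cdm.sq H b0 k).map FreeGroup.of).prod)) := by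
    set C := Subgroup.closure
      (Set.range (fun k : Fin N => ((Cdm.sq H b0 k).map FreeGroup.of).prod)) with hC
    have hall := hnf.hull (fun x => (x.map FreeGroup.of).prod ∈ C) (by simp [C.one_mem])
      (by
        intro x y hx hy
        rw [List.map_append, List.prod_append]
        exact C.mul_mem hx hy)
      (by
        intro x y z hx hy hxz hzy
        rw [List.map_append, List.prod_append] at hxz
        exact (C.mul_mem_cancel_left hx).1 hxz)
      (by
        intro k hk
        apply Subgroup.subset_closure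
        refine ⟨⟨k, hk⟩, ?_⟩
        simp only
        rw [sq_eq])
    intro a
    simpa using hall [a]
  have hbig : ∃ a, 1 < (H a).length := by
    by_contra hsm
    push Not at hsm
    obtain ⟨q, hq⟩ := hnf.gr ⟨0, hn⟩ 2
    have h4 := length_it_le hsm q [⟨0, hn⟩]
    simp only [one_pow, List.length_singleton, mul_one] at h4
    omega
  have := Cdm.letters_of_good hn hnf.le hne hnf.ne hlc hfirst hlast hu hg hgl hgr hbig ⟨i, hi⟩
  rwa [sq_eq] at this


theorem df_rev (h : DL H b0) : DF (rev H) b0.reverse := by
  obtain ⟨k, d, js, h1, h2⟩ := h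
  refine ⟨k, d, js.reverse, ?_, ?_⟩
  · intro j hj
    apply h1
    simpa [or_comm] using hj
  · have h3 := congrArg List.reverse h2
    rw [it_rev, h3]
    have h4 : (0 :: js.reverse) = (js ++ [0]).reverse := by simp
    rw [h4]
    have h5 := prod_rev H (it H k b0) (js ++ [0])
    simp only [← it_rev, ← it_add] at h5 ⊢
    have h6 : ∀ j, j + k = k + j := fun j => Nat.add_comm j k
    simp only [h6] at h5
    exact h5.symm

theorem letters (hnf : NF H b0 N) (hf : DF H b0) (hl : DL H b0) (i : ℕ) (hi : i < n) :
    (it H i b0).length = 1 :=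
  letters_of_lg hnf (lgood hnf hf) (lgood hnf.reverse (df_rev hl)) i hi

/-- **A normal form with a formula whose first entry is its depth and a formula whose last entry is its
depth has a formula of depth `n` with both properties.** -/
theorem relE_of_nf (n N : ℕ) (H : Fin n → List (Fin n)) (b0 : List (Fin n)) (hnf : NF H b0 N)
    (hf : DF H b0) (hl : DL H b0) : RelE H b0 n := by
  classical
  have hlet := letters hnf hf hl
  obtain ⟨f, hfb, hf'⟩ := hnf.first
  have htok : ∀ i : Fin n, it H i b0 = [f i] := by
    intro i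
    obtain ⟨s, hs⟩ := hf' i
    have h1 := hlet i i.2
    rw [hs, List.length_cons] at h1
    have h2 : s = [] := List.length_eq_zero_iff.1 (by omega)
    rw [hs, h2]
  have key : ∀ (H : Fin n → List (Fin n)) (b0 : List (Fin n)), NF H b0 N → DF H b0 →
      ∃ a0 s s', b0 = a0 :: s ∧ it H n b0 = a0 :: s' := by
    intro H b0 hnf hf
    have hne : ∀ a, H a ≠ [] := fun a => ne_of_inj hnf.inj a
    obtain ⟨k, d, js, hlt, hrel⟩ := hf
    have hdpos : 0 < d := by
      have := hlt 0 (by simp)
      omega
    have hinjk : Function.Injective (it H k) := hnf.inj.iterate k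
    have hu : it H d b0 = b0 ++ (js.map (fun j => it H j b0)).flatten := by
      apply hinjk
      rw [← it_add, hrel, List.map_cons, List.flatten_cons, it_append, it_flatten, List.map_map,
        Nat.add_zero]
      congr 2
      apply List.map_congr_left
      intro j _
      simp only [Function.comp]
      rw [← it_add]
    obtain ⟨a0, hd⟩ := exists_fd hnf hne hdpos hu
    obtain ⟨s, hs⟩ := hd.tok 0
    obtain ⟨s', hs'⟩ := hd.tok n
    have hfix : (fl hne)^[n] a0 = a0 := by
      have := Function.isPeriodicPt_minimalPeriod (fl hne) a0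
      rw [hd.per] at this
      exact this
    rw [hfix] at hs'
    exact ⟨a0, s, s', hs, hs'⟩
  obtain ⟨a0, s, s', h1, h2⟩ := key H b0 hnf hf
  have hn : 0 < n := Fin.pos a0
  have h0 : b0 = [f ⟨0, hn⟩] := htok ⟨0, hn⟩
  have ha0 : a0 = f ⟨0, hn⟩ := by
    rw [h0] at h1
    simp only [List.cons.injEq] at h1
    exact h1.1.symm
  obtain ⟨a1, t, t', h3, h4⟩ := key (rev H) b0.reverse hnf.reverse (df_rev hl)
  have ha1 : a1 = f ⟨0, hn⟩ := by
    rw [h0] at h3
    simp only [List.reverse_cons, List.reverse_nil, List.nil_append, List.cons.injEq] at h3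
    exact h3.1.symm
  rw [it_rev] at h4
  set e := Equiv.ofBijective f hfb with he
  have hes : ∀ i, e.symm (f i) = i := fun i => e.symm_apply_apply i
  refine ⟨0, n, (it H n b0).map (fun a => ((e.symm a : Fin n) : ℕ)), by omega, ⟨?_, ?_⟩, ?_, ?_⟩
  · intro j hj
    obtain ⟨a, -, rfl⟩ := List.mem_map.1 hj
    exact (e.symm a).2
  · rw [Nat.zero_add, List.map_map]
    have h5 : ∀ x : List (Fin n),
        (x.map ((fun j => it H (0 + j) b0) ∘ (fun a => ((e.symm a : Fin n) : ℕ)))).flatten = x := by
      intro x
      induction x with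
      | nil => rfl
      | cons a x ih =>
        rw [List.map_cons, List.flatten_cons, ih]
        simp only [Function.comp, Nat.zero_add]
        rw [htok]
        have h6 : f (e.symm a) = a := e.apply_symm_apply a
        rw [h6]
        rfl
    rw [h5]
  · rw [h2, ha0, List.map_cons, List.head?_cons, hes]
  · rw [List.getLast?_map, ← List.head?_reverse, h4, ha1, List.head?_cons, Option.map_some, hes]

/-- **The bound for the formulas with both ends equal to the depth.** -/
theorem boundE : ∃ F, Computable F ∧ ∀ (α : Type) [Fintype α] (h : α → List α) (w : List α) (s : ℕ),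
    Sz s h w → DF h w → DL h w → ∃ p ≤ F s, RelE h w p :=
  boundE_of relE_of_nf

end En

end D0L
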