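import Pool.Agent.H.MP_374efc_lc.En.Nf3
import Pool.Agent.H.MP_374efc_lc.Oe.Sh3

/-!
# MP_374efc_lc: decidability of the formulas whose first and last entries are the depth

`RelE.mono`, `prim_relE`: the relation `RelE` at the level `p` is monotone in `p` and primitive recursive.
`relE_iff_lsat`, `df_iff_lsat`, `dl_iff_lsat`: the translation to formulas.  `ends_decidable`: it is decidable for all
D0L systems whether they satisfy a formula whose first entry is its depth and a formula whose last entry is its depth.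
-/

set_option autoImplicit false

namespace D0L

namespace En

section gen

variable {α : Type} {h : α → List α} {w : List α}

theorem relE_mono {p q : ℕ} (hp : RelE h w p) (hpq : p ≤ q) : RelE h w q := by
  obtain ⟨k, d, js, h1, h2, h3, h4⟩ := hp
  exact ⟨k + (q - p), d, js, by omega, h2.up (q - p), h3, h4⟩

theorem map_hs_inj {β : Type} {f : α → β} {g : β → List β} {v : List β} (hf : Function.Injective f)
    (hit : ∀ n, (it h n w).map f = it g n v) {k d : ℕ} {js : List ℕ} :
    RS h w k d js ↔ RS g v k d js := by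
  unfold RS
  have key : ((js.map (fun j => it h (k + j) w)).flatten).map f =
      (js.map (fun j => it g (k + j) v)).flatten := by
    rw [List.map_flatten, List.map_map]
    congr 1
    apply List.map_congr_left
    intro j _
    exact hit (k + j)
  constructor
  · rintro ⟨h1, h2⟩
    refine ⟨h1, ?_⟩
    rw [← hit, h2, key]
  · rintro ⟨h1, h2⟩
    refine ⟨h1, ?_⟩
    apply List.map_injective_iff.2 hf
    rw [key, hit, h2]

end gen

section val

variable (s : List (List ℕ) × List ℕ)

theorem rs_val {k d : ℕ} {js : List ℕ} : RS (hf s) (wf s) k d js ↔ RS (hs s) s.2 k d js :=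
  map_hs_inj Fin.val_injective (it_val s)

theorem df_val : DF (hf s) (wf s) ↔ DF (hs s) s.2 := by
  unfold DF
  simp only [rs_val]

theorem dl_val : DL (hf s) (wf s) ↔ DL (hs s) s.2 := by
  unfold DL
  simp only [rs_val]

theorem relE_val (p : ℕ) : RelE (hf s) (wf s) p ↔ RelE (hs s) s.2 p := by
  unfold RelE
  simp only [rs_val]

end val

/-- Lists of levels which begin and end with `k`. -/
theorem relE_iff_cand (s : List (List ℕ) × List ℕ) (p : ℕ) :
    RelE (hs s) s.2 p ↔
      ∃ js ∈ cand p (sqn s p).length, (js.map (sqn s)).flatten = sqn s p ∧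
        js.head? = js.getLast? ∧ ∀ j ∈ js, js.headD 0 ≤ j := by
  constructor
  · rintro ⟨k, d, js, rfl, ⟨h1, h2⟩, h3, h4⟩
    have hd : 0 < d := by
      have : 0 ∈ js := List.mem_of_head? h3
      exact h1 0 this
    by_cases hk : sqn s k = []
    · refine ⟨[k], mem_cand.2 ⟨by simp, by simp, ?_⟩, ?_, by simp, by simp⟩
      · intro j hj
        rw [List.mem_singleton] at hj
        omega
      · have h5 : sqn s (k + d) = [] := by
          unfold sqn at hk ⊢
          rw [Nat.add_comm, it_add, hk, it_nil]
        rw [List.map_cons, List.map_nil, List.flatten_cons, List.flatten_nil, hk, h5]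
        rfl
    · set ks : List ℕ := js.map (fun j => k + j) with hks
      have h5 : (ks.map (sqn s)).flatten = sqn s (k + d) := by
        rw [hks, List.map_map]
        exact h2.symm
      obtain ⟨h6, h7⟩ := drop_empty (sqn s) ks
      set P : ℕ → Bool := fun j => !(sqn s j).isEmpty with hP
      have hPk : P k = true := by
        simp only [hP, Bool.not_eq_true', List.isEmpty_eq_false_iff]
        exact hk
      obtain ⟨t, ht⟩ : ∃ t, ks = k :: t := by
        cases js with
        | nil => simp at h3
        | cons a t =>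
          rw [List.head?_cons, Option.some.injEq] at h3
          exact ⟨t.map (fun j => k + j), by rw [hks, h3]; simp⟩
      obtain ⟨t', ht'⟩ : ∃ t', ks = t' ++ [k] := by
        rcases List.eq_nil_or_concat js with rfl | ⟨t, a, rfl⟩
        · simp at h3
        · rw [List.concat_eq_append, List.getLast?_append_of_ne_nil _ (by simp),
            List.getLast?_singleton, Option.some.injEq] at h4
          refine ⟨t.map (fun j => k + j), ?_⟩
          rw [hks, List.concat_eq_append, h4]
          simp
      have h8 : (ks.filter P).head? = some k := by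
        rw [ht, List.filter_cons_of_pos hPk, List.head?_cons]
      have h9 : (ks.filter P).getLast? = some k := by
        rw [ht', List.filter_append, List.filter_cons_of_pos hPk, List.filter_nil,
          List.getLast?_append_of_ne_nil _ (by simp), List.getLast?_singleton]
      refine ⟨ks.filter P, mem_cand.2 ⟨?_, ?_, ?_⟩, h6.trans h5, ?_, ?_⟩
      · intro h10
        rw [h10] at h8
        simp at h8
      · rw [h5] at h7
        omega
      · intro j hj
        have h10 := (List.mem_filter.1 hj).1
        rw [hks] at h10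
        obtain ⟨i, hi, rfl⟩ := List.mem_map.1 h10
        have := h1 i hi
        omega
      · rw [h8, h9]
      · intro j hj
        have h10 := (List.mem_filter.1 hj).1
        rw [hks] at h10
        obtain ⟨i, hi, rfl⟩ := List.mem_map.1 h10
        rw [List.headD_eq_head?_getD, h8]
        simp
  · rintro ⟨js, h1, h2, h3, h4⟩
    obtain ⟨h5, -, h6⟩ := mem_cand.1 h1
    obtain ⟨k, t, rfl⟩ := List.exists_cons_of_ne_nil h5
    simp only [List.headD_cons] at h4
    have hk : k < p := h6 k (by simp)
    refine ⟨k, p - k, (k :: t).map (fun j => j - k), by omega, ⟨?_, ?_⟩, ?_, ?_⟩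
    · intro j hj
      obtain ⟨i, hi, rfl⟩ := List.mem_map.1 hj
      have := h6 i hi
      have := h4 i hi
      omega
    · rw [show k + (p - k) = p by omega]
      refine h2.symm.trans ?_
      rw [List.map_map]
      congr 1
      apply List.map_congr_left
      intro i hi
      have := h4 i hi
      simp only [Function.comp]
      rw [show k + (i - k) = i by omega]
      rfl
    · simp
    · rw [List.getLast?_map, ← h3]
      simp

section prim

open Primrec

theorem prim_relE : PrimrecRel (fun (s : List (List ℕ) × List ℕ) (p : ℕ) =>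
    RelE (hs s) s.2 p) := by
  have h1 : PrimrecRel (fun (js : List ℕ) (x : (List (List ℕ) × List ℕ) × ℕ) =>
      (js.map (sqn x.1)).flatten = sqn x.1 x.2 ∧
        js.head? = js.getLast? ∧ ∀ j ∈ js, js.headD 0 ≤ j) := by
    have e1 : PrimrecRel (fun (js : List ℕ) (x : (List (List ℕ) × List ℕ) × ℕ) =>
        (js.map (sqn x.1)).flatten = sqn x.1 x.2) := by
      refine Primrec.eq.comp₂ ?_ ?_
      · refine (list_flatten.comp (list_map
          (f := fun y : List ℕ × ((List (List ℕ) × List ℕ) × ℕ) => y.1)
          (g := fun y j => sqn y.2.1 j) fst ?_)).to₂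
        exact prim_sqn.comp₂ ((fst.comp snd).comp fst).to₂ snd.to₂
      · exact (prim_sqn.comp (fst.comp snd) (snd.comp snd)).to₂
    have e2 : PrimrecRel (fun (js : List ℕ) (_ : (List (List ℕ) × List ℕ) × ℕ) =>
        js.head? = js.getLast?) := by
      refine Primrec.eq.comp₂ ?_ ?_
      · exact (list_head?.comp fst).to₂
      · have e6 : Primrec (fun x : List ℕ × ((List (List ℕ) × List ℕ) × ℕ) =>
            x.1.reverse.head?) := list_head?.comp (list_reverse.comp fst)
        exact (e6.of_eq (fun x => List.head?_reverse)).to₂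
    have e3 : PrimrecRel (fun (js : List ℕ) (_ : (List (List ℕ) × List ℕ) × ℕ) =>
        ∀ j ∈ js, js.headD 0 ≤ j) := by
      have e4 : PrimrecRel (fun (j k : ℕ) => k ≤ j) := nat_le.comp snd fst
      have e5 := e4.forall_mem_list
      refine e5.comp (f := fun y : List ℕ × ((List (List ℕ) × List ℕ) × ℕ) => y.1)
        (g := fun y => y.1.headD 0) fst ?_
      have e7 : Primrec (fun x : List ℕ × ((List (List ℕ) × List ℕ) × ℕ) =>
          x.1.head?.getD 0) := option_getD.comp (list_head?.comp fst) (const 0)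
      exact e7.of_eq (fun x => (List.headD_eq_head?_getD).symm)
    exact e1.and (e2.and e3)
  have h2 := h1.exists_mem_list
  have h3 : PrimrecPred (fun x : (List (List ℕ) × List ℕ) × ℕ =>
      ∃ js ∈ cand x.2 (sqn x.1 x.2).length, (js.map (sqn x.1)).flatten = sqn x.1 x.2 ∧
        js.head? = js.getLast? ∧ ∀ j ∈ js, js.headD 0 ≤ j) := by
    refine h2.comp (f := fun x : (List (List ℕ) × List ℕ) × ℕ =>
      cand x.2 (sqn x.1 x.2).length) (g := fun x => x) ?_ .id
    exact prim_cand.comp snd (list_length.comp prim_sqn)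
  exact h3.of_eq (fun x => (relE_iff_cand x.1 x.2).symm)

end prim

section formulas

variable {c : List (List ℕ) × List ℕ}

theorem lsat_of_rs {k d : ℕ} {js : List ℕ} (hne : js ≠ []) (hr : RS (hs c) c.2 k d js) :
    LSat c (js.map fun j => d - j) := by
  obtain ⟨h1, h2⟩ := hr
  have h3 : Eqn (hs c) c.2 (k + d) (js.map fun j => k + j) := by
    unfold Eqn
    rw [h2, List.map_map]
    rfl
  have h4 := lsat_of_eqn (c := c) (p := k + d) (js := js.map fun j => k + j) (by simpa using hne)
    (by
      intro j hj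
      obtain ⟨i, hi, rfl⟩ := List.mem_map.1 hj
      have := h1 i hi
      omega) h3
  rw [List.map_map] at h4
  have h5 : (js.map ((fun j => k + d - j) ∘ fun j => k + j)) = js.map fun j => d - j := by
    apply List.map_congr_left
    intro j _
    simp only [Function.comp]
    omega
  rwa [h5] at h4

theorem rs_of_lsat {is : List ℕ} {m : ℕ} (hm : ∀ i ∈ is, i ≤ m) (hmm : m ∈ is) (h : LSat c is) :
    ∃ k, RS (hs c) c.2 k m (is.map fun i => m - i) := by
  obtain ⟨p, h1, h2⟩ := eqn_of_lsat h
  have hp : m ≤ p := (h1 m hmm).2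
  refine ⟨p - m, ?_, ?_⟩
  · intro j hj
    obtain ⟨i, hi, rfl⟩ := List.mem_map.1 hj
    have := (h1 i hi).1
    have := hm i hi
    omega
  · rw [show p - m + m = p by omega]
    unfold Eqn at h2
    rw [h2, List.map_map, List.map_map]
    congr 1
    apply List.map_congr_left
    intro i hi
    have := hm i hi
    simp only [Function.comp]
    rw [show p - m + (m - i) = p - i by omega]

/-- Formulas whose first entry is the depth. -/
theorem df_iff_lsat : DF (hs c) c.2 ↔
    ∃ (is : List ℕ) (m : ℕ), is.head? = some m ∧ (∀ i ∈ is, i ≤ m) ∧ LSat c is := by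
  constructor
  · rintro ⟨k, d, js, hr⟩
    refine ⟨(0 :: js).map fun j => d - j, d, by simp, ?_, lsat_of_rs (by simp) hr⟩
    intro i hi
    obtain ⟨j, -, rfl⟩ := List.mem_map.1 hi
    omega
  · rintro ⟨is, m, h1, h2, h3⟩
    obtain ⟨k, hk⟩ := rs_of_lsat h2 (List.mem_of_head? h1) h3
    cases is with
    | nil => simp at h1
    | cons a t =>
      rw [List.head?_cons, Option.some.injEq] at h1
      refine ⟨k, m, t.map fun i => m - i, ?_⟩
      rw [List.map_cons, h1, Nat.sub_self] at hk
      exact hk

/-- Formulas whose last entry is the depth. -/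
theorem dl_iff_lsat : DL (hs c) c.2 ↔
    ∃ (is : List ℕ) (m : ℕ), is.getLast? = some m ∧ (∀ i ∈ is, i ≤ m) ∧ LSat c is := by
  constructor
  · rintro ⟨k, d, js, hr⟩
    refine ⟨(js ++ [0]).map fun j => d - j, d, by simp, ?_, lsat_of_rs (by simp) hr⟩
    intro i hi
    obtain ⟨j, -, rfl⟩ := List.mem_map.1 hi
    omega
  · rintro ⟨is, m, h1, h2, h3⟩
    obtain ⟨k, hk⟩ := rs_of_lsat h2 (List.mem_of_getLast? h1) h3
    rcases List.eq_nil_or_concat is with rfl | ⟨t, a, rfl⟩
    · simp at h1
    · rw [List.concat_eq_append] at h1 hk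
      rw [List.getLast?_append_of_ne_nil _ (by simp), List.getLast?_singleton,
        Option.some.injEq] at h1
      refine ⟨k, m, t.map fun i => m - i, ?_⟩
      rw [List.map_append, List.map_cons, List.map_nil, h1, Nat.sub_self] at hk
      exact hk

/-- Formulas whose first and last entries are the depth. -/
theorem relE_iff_lsat : (∃ p, RelE (hs c) c.2 p) ↔
    ∃ (is : List ℕ) (m : ℕ), is.head? = some m ∧ is.getLast? = some m ∧ (∀ i ∈ is, i ≤ m) ∧
      LSat c is := by
  constructor
  · rintro ⟨p, k, d, js, rfl, hr, h1, h2⟩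
    have hne : js ≠ [] := by
      rintro rfl
      simp at h1
    refine ⟨js.map fun j => d - j, d, ?_, ?_, ?_, lsat_of_rs hne hr⟩
    · rw [List.head?_map, h1]
      rfl
    · rw [List.getLast?_map, h2]
      rfl
    · intro i hi
      obtain ⟨j, -, rfl⟩ := List.mem_map.1 hi
      omega
  · rintro ⟨is, m, h1, h2, h3, h4⟩
    obtain ⟨k, hk⟩ := rs_of_lsat h3 (List.mem_of_head? h1) h4
    refine ⟨k + m, k, m, is.map fun i => m - i, rfl, hk, ?_, ?_⟩
    · rw [List.head?_map, h1, Option.map_some, Nat.sub_self]
    · rw [List.getLast?_map, h2, Option.map_some, Nat.sub_self]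

end formulas

/-- **Decidability for both ends.** -/
theorem ends_decidable :
    ∃ A : List (List ℕ) × List ℕ → Bool, Computable A ∧ ∀ c,
      (A c = true ↔ ∃ (is : List ℕ) (m : ℕ), is.head? = some m ∧ is.getLast? = some m ∧
        (∀ i ∈ is, i ≤ m) ∧ LSat c is) ∧
      (A c = true ↔
        (∃ (is : List ℕ) (m : ℕ), is.head? = some m ∧ (∀ i ∈ is, i ≤ m) ∧ LSat c is) ∧
        ∃ (is : List ℕ) (m : ℕ), is.getLast? = some m ∧ (∀ i ∈ is, i ≤ m) ∧ LSat c is) := by
  obtain ⟨F, hF, hB⟩ := boundE
  obtain ⟨hd, h2⟩ := prim_relE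
  set A : List (List ℕ) × List ℕ → Bool := fun c =>
    @decide ((fun x : (List (List ℕ) × List ℕ) × ℕ => RelE (hs x.1) x.1.2 x.2) (c, F (sz c)))
      (hd (c, F (sz c))) with hA
  have h3 : ∀ c, A c = true ↔ RelE (hs c) c.2 (F (sz c)) := fun c =>
    @decide_eq_true_iff _ (hd (c, F (sz c)))
  have h4 : ∀ c, (∃ (is : List ℕ) (m : ℕ), is.head? = some m ∧ (∀ i ∈ is, i ≤ m) ∧ LSat c is) →
      (∃ (is : List ℕ) (m : ℕ), is.getLast? = some m ∧ (∀ i ∈ is, i ≤ m) ∧ LSat c is) →
      A c = true := by
    intro c h5 h6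
    rw [h3]
    obtain ⟨p, hp, hp1⟩ := hB (Fin (nl c)) (hf c) (wf c) (sz c) (sz_ok c)
      ((df_val c).2 (df_iff_lsat.2 h5)) ((dl_val c).2 (dl_iff_lsat.2 h6))
    exact relE_mono ((relE_val c p).1 hp1) hp
  have h5 : ∀ c, A c = true → ∃ (is : List ℕ) (m : ℕ), is.head? = some m ∧
      is.getLast? = some m ∧ (∀ i ∈ is, i ≤ m) ∧ LSat c is := fun c hc =>
    relE_iff_lsat.1 ⟨_, (h3 c).1 hc⟩
  refine ⟨A, ?_, fun c => ⟨⟨h5 c, ?_⟩, ⟨?_, fun h6 => h4 c h6.1 h6.2⟩⟩⟩
  · exact h2.to_comp.comp (Computable.id.pair (hF.comp prim_sz.to_comp))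
  · rintro ⟨is, m, h6, h7, h8, h9⟩
    exact h4 c ⟨is, m, h6, h8, h9⟩ ⟨is, m, h7, h8, h9⟩
  · intro hc
    obtain ⟨is, m, h6, h7, h8, h9⟩ := h5 c hc
    exact ⟨⟨is, m, h6, h8, h9⟩, ⟨is, m, h7, h8, h9⟩⟩

end En

end D0L
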