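import Pool.Agent.H.MP_374efc_lc.Oe.T1

/-!
# MP_374efc_lc: the counting argument of Lemma T with a period `e`
-/

set_option autoImplicit false

namespace D0L

namespace OE

variable {α : Type}

/-- **Density grows.**  The heart of the counting argument. -/
theorem dens_false_e {h : α → List α} {w : List α} {Λ : ℕ} (hΛ : ∀ a, (h a).length ≤ Λ)
    {N : ℕ} {js : List ℕ} (hlt : ∀ j ∈ js, j < N)
    (hrel : it h N w = (js.map (fun j => it h j w)).flatten)
    (hpos : ∀ j, it h j w ≠ []) (hmono : ∀ j, (it h j w).length ≤ (it h (j + 1) w).length)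
    (hdb : ∀ m, 2 * (it h m w).length ≤ (it h (N + m) w).length) {c e : ℕ}
    (hc : ∀ t, it h (c + t) w ++ it h t w <+: it h (c + t + e) w)
    (hno : ∀ K y, it h (K + e) w = it h K w ++ y → ¬ TMs h w (fun _ => True) y) : False := by
  classical
  set M : List α → Prop := TMs h w (fun _ => True) with hM
  have hnil : M [] := TMs.nil
  have hap : ∀ x y, M x → M y → M (x ++ y) := fun x y hx hy => hx.append hy
  have htok : ∀ j, M (it h j w) := fun j => TMs.tok trivial
  set ln : ℕ → ℕ := fun j => (it h j w).length with hln
  have hmon : Monotone ln := monotone_nat_of_le_succ hmono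
  have hlnpos : ∀ j, 0 < ln j := fun j => List.length_pos_of_ne_nil (hpos j)
  have hN : 0 < N := by
    by_contra h0
    have h1 : N = 0 := by omega
    subst h1
    have h2 := hdb 0
    have h3 := hlnpos 0
    simp only [hln, Nat.zero_add] at h2 h3
    omega
  -- doubling
  have hdbl : ∀ r m, 2 ^ r * ln m ≤ ln (r * N + m) := by
    intro r
    induction r with
    | zero => intro m; simp
    | succ r ih =>
      intro m
      have h1 := ih m
      have h2 := hdb (r * N + m)
      have h3 : (r + 1) * N + m = N + (r * N + m) := by ring
      rw [h3]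
      calc 2 ^ (r + 1) * ln m = 2 * (2 ^ r * ln m) := by ring
        _ ≤ 2 * ln (r * N + m) := Nat.mul_le_mul_left 2 h1
        _ ≤ _ := h2
  set ml := ln N with hml
  have hmlpos : 0 < ml := hlnpos N
  set q := Λ ^ (c + e) with hq
  set E := 4 * q * ml with hE
  set f : ℕ → ℕ := fun L => cn M [] (it h L w) with hf
  have hfl : ∀ L, f L ≤ ln L := fun L => cn_le_length M _ _
  have hgrow : ∀ t, ln (c + t + e) ≤ q * ln t := by
    intro t
    have h1 := length_it_le hΛ (c + e) (it h t w)
    rw [← it_add] at h1
    have h2 : c + t + e = c + e + t := by omega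
    simp only [hln]
    rw [h2]
    exact h1
  have hqpos : 0 < q := by
    have h1 := hgrow 0
    have h2 := hlnpos (c + 0 + e)
    rcases Nat.eq_zero_or_pos q with h3 | h3
    · rw [h3] at h1
      omega
    · exact h3
  -- the induction
  have key : ∀ m, ∃ L0, ∀ L, L0 ≤ L → m * ln L ≤ E * f L := by
    intro m
    induction m with
    | zero => exact ⟨0, fun L _ => by simp⟩
    | succ m ih =>
      obtain ⟨L0, hL0⟩ := ih
      have hmE : m ≤ E := by
        have h1 := hL0 L0 le_rfl
        have h2 := hfl L0
        have h3 := hlnpos L0
        have h4 : m * ln L0 ≤ E * ln L0 := h1.trans (Nat.mul_le_mul_left E h2)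
        exact Nat.le_of_mul_le_mul_right h4 h3
      -- choose `r` with `2 ^ r ≥ 4 * ml`
      obtain ⟨r, hr⟩ : ∃ r, 4 * ml ≤ 2 ^ r := ⟨4 * ml, Nat.lt_two_pow_self.le⟩
      refine ⟨c + e + (L0 + (r + 1) * N + (ml + 1) * N), ?_⟩
      intro L hL
      obtain ⟨t, rfl⟩ : ∃ t, L = c + t + e := ⟨L - c - e, by omega⟩
      have ht : L0 + (r + 1) * N + (ml + 1) * N ≤ t := by omega
      -- the words
      obtain ⟨d, hd⟩ := hc t
      set a := it h (c + t) w with ha
      set b := it h t w with hb
      have hW : it h (c + t + e) w = a ++ (b ++ d) := by rw [← hd, List.append_assoc]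
      -- refinement to level 0
      obtain ⟨ks, hk1, hk2⟩ := refine_rel hlt hrel 0 (c + t + e) (Nat.zero_le _)
      have hcut := cuts1 (M := M) hnil hap htok (ml := ml) (js := ks)
        (fun j hj => hmon (by have := (hk1 j hj).2; omega)) hpos [] a b d hnil
        (by rw [← hk2, hW])
      rw [List.nil_append] at hcut
      -- refinement to level T
      set T := t - (r + 1) * N with hT
      have hTle : L0 ≤ T := by
        rw [hT]
        omega
      obtain ⟨is, hi1, hi2⟩ := refine_rel hlt hrel T (c + t + e) (by omega)
      have hTt : T + (r + 1) * N = t := by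
        rw [hT]
        have : (r + 1) * N ≤ t := by omega
        omega
      set tail := ln (t - r * N) with htail
      have hrN : (r + 1) * N = r * N + N := by ring
      have hdens := dens1 (M := M) hap htok (m := m) (E := E) (tail := tail) (js := is)
        (fun j hj => hL0 j (by have := (hi1 j hj).1; omega))
        (fun j hj => hmon (by have := (hi1 j hj).2; omega)) [] (a ++ b) d hnil
        (by rw [← hi2, hW, List.append_assoc])
      rw [List.nil_append] at hdens
      -- the window
      have hwin := cn_add_zn M hap (htok (c + t)) (d := d) b [] (by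
        rw [List.nil_append]
        exact hno (c + t) (b ++ d) hW)
      rw [List.append_nil, ← ha] at hwin
      -- the count
      have hf1 : f (c + t + e) = f (c + t) + cn M a b + cn M (a ++ b) d := by
        simp only [hf]
        rw [hW, cn_append, List.nil_append, cn_append, ← ha, add_assoc]
      have hA : m * ln (c + t) ≤ E * f (c + t) := hL0 _ (by omega)
      have hB : m * ln t ≤ E * f t := hL0 _ (by omega)
      have hlen : ln (c + t + e) = ln (c + t) + ln t + d.length := by
        simp only [hln]
        rw [hW, List.length_append, List.length_append, ← ha, ← hb]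
        omega
      -- numbers
      have hlt1 : 2 * ml ≤ ln t := by
        have h1 := hdbl (ml + 1) (t - (ml + 1) * N)
        have h2 : (ml + 1) * N + (t - (ml + 1) * N) = t := by
          have : (ml + 1) * N ≤ t := by omega
          omega
        rw [h2] at h1
        have h3 := hlnpos (t - (ml + 1) * N)
        have h4 : ml < 2 ^ ml := Nat.lt_two_pow_self
        have h5 : 2 ^ (ml + 1) = 2 * 2 ^ ml := by ring
        nlinarith
      have htl : 4 * (ml * tail) ≤ ln t := by
        have h1 := hdbl r (t - r * N)
        have h2 : r * N + (t - r * N) = t := by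
          have : r * N ≤ t := by omega
          omega
        rw [h2] at h1
        calc 4 * (ml * tail) = 4 * ml * tail := by ring
          _ ≤ 2 ^ r * tail := Nat.mul_le_mul_right _ hr
          _ ≤ ln t := h1
      have hgr := hgrow t
      have e1 : m * tail ≤ q * ln t := by
        calc m * tail ≤ E * tail := Nat.mul_le_mul_right _ hmE
          _ = q * (4 * (ml * tail)) := by rw [hE]; ring
          _ ≤ q * ln t := Nat.mul_le_mul_left _ htl
      have hcut' : b.length ≤ ml * zn M d a b + ml := hcut
      have hbl : b.length = ln t := rfl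
      rw [hbl] at hcut'
      set z := zn M d a b with hz
      have e2 : 4 * q * ln t ≤ E * z + 4 * q * ml := by
        calc 4 * q * ln t ≤ 4 * q * (ml * z + ml) := Nat.mul_le_mul_left _ hcut'
          _ = E * z + 4 * q * ml := by rw [hE]; ring
      have e3 : 4 * q * ml ≤ 2 * (q * ln t) := by
        calc 4 * q * ml = 2 * (q * (2 * ml)) := by ring
          _ ≤ 2 * (q * ln t) := Nat.mul_le_mul_left _ (Nat.mul_le_mul_left _ hlt1)
      have e4 : 4 * q * ln t = 4 * (q * ln t) := by ring
      have e5 : 2 * (q * ln t) ≤ E * z := by omega
      have e6 : E * f t + E * z ≤ E * cn M a b := by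
        have h1 : f t + z ≤ cn M a b := hwin
        calc E * f t + E * z = E * (f t + z) := by ring
          _ ≤ E * cn M a b := Nat.mul_le_mul_left _ h1
      have e7 : E * f (c + t + e) = E * f (c + t) + E * cn M a b + E * cn M (a ++ b) d := by
        rw [hf1]
        ring
      have e8 : (m + 1) * ln (c + t + e) = m * ln (c + t) + m * ln t + m * d.length +
          ln (c + t + e) := by
        rw [add_mul, one_mul, hlen]
        ring
      rw [e7, e8]
      omega
  obtain ⟨L0, hL0⟩ := key (E + 1)
  have h1 := hL0 L0 le_rfl
  have h2 := Nat.mul_le_mul_left E (hfl L0)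
  have h3 := hlnpos L0
  rw [add_mul, one_mul] at h1
  omega

end OE

end D0L
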