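import Pool.Agent.H.MP_374efc_lc.En.T1e
import Pool.Agent.H.MP_374efc_lc.Oe.T2
import Pool.Agent.H.MP_374efc_lc.Red.Bdd

/-!
# MP_374efc_lc: Lemma T with a period `e`
-/

set_option autoImplicit false

namespace D0L

namespace OE

variable {α : Type}

theorem pfxe_all {h : α → List α} {w : List α} {e : ℕ} (hp : w <+: it h e w) (j : ℕ) :
    it h j w <+: it h (j + e) w := by
  rw [it_add]
  exact it_prefix j hp

theorem pfxe_mul {h : α → List α} {w : List α} {e : ℕ} (hp : w <+: it h e w) (j t : ℕ) :
    it h j w <+: it h (j + e * t) w := by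
  induction t with
  | zero => exact List.prefix_refl _
  | succ t ih =>
    refine ih.trans ?_
    rw [Nat.mul_succ, ← Nat.add_assoc]
    exact pfxe_all hp _

/-- Lemma T with a period, start level `0`. -/
theorem lemT0e {h : α → List α} {w : List α} {Λ : ℕ} (hΛ : ∀ a, (h a).length ≤ Λ)
    (hne : ∀ a, h a ≠ []) (hlc : LC h w) {e : ℕ} (he : 0 < e) (hp : w <+: it h e w) :
    ∃ (p : ℕ) (js : List ℕ),
      it h (p + e) w = it h p w ++ (js.map (fun j => it h j w)).flatten := by
  by_contra hcon
  push Not at hcon
  set ln : ℕ → ℕ := fun j => (it h j w).length with hln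
  have hmon : Monotone ln := fun i j hij => length_it_mono hne w hij
  have hmono : ∀ j, ln j ≤ ln (j + 1) := fun j => hmon (Nat.le_succ j)
  have hstrict : ∀ j, ln j < ln (j + e) := by
    intro j
    rcases lt_or_eq_of_le ((pfxe_all hp j).length_le) with h1 | h1
    · exact h1
    · exfalso
      have h2 := (pfxe_all hp j).eq_of_length h1
      apply hcon j []
      simpa using h2.symm
  have hpos : ∀ j, it h j w ≠ [] := by
    intro j hj
    have h1 := hstrict j
    simp only [hln] at h1
    have h2 : it h (j + e) w = [] := by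
      rw [Nat.add_comm, it_add, hj, it_nil]
    rw [h2] at h1
    simp at h1
  have hlnpos : ∀ j, 0 < ln j := fun j => List.length_pos_of_ne_nil (hpos j)
  have hno : ∀ K y, it h (K + e) w = it h K w ++ y → ¬ TMs h w (fun _ => True) y := by
    rintro K y hy ⟨js, -, rfl⟩
    exact hcon K js hy
  obtain ⟨N, js, hne', hlt, hrel⟩ := hlc
  obtain ⟨j1, j2, rest, rfl⟩ : ∃ j1 j2 rest, js = j1 :: j2 :: rest := by
    rcases js with _ | ⟨j1, _ | ⟨j2, rest⟩⟩
    · exact absurd rfl hne'
    · exfalso
      have h1 := hlt j1 (by simp)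
      have h2 : it h N w = it h j1 w := by
        rw [hrel]
        simp
      obtain ⟨c, rfl⟩ : ∃ c, N = j1 + (c + 1) := ⟨N - j1 - 1, by omega⟩
      have h3 : ∀ t, it h (j1 + (c + 1) * t) w = it h j1 w := by
        intro t
        induction t with
        | zero => rfl
        | succ t ih =>
          rw [Nat.mul_succ, show j1 + ((c + 1) * t + (c + 1)) = (c + 1) * t + (j1 + (c + 1)) by ring,
            it_add, h2, ← it_add, Nat.add_comm, ih]
      have h4 := h3 e
      have h5 : ln (j1 + e) ≤ ln (j1 + (c + 1) * e) := hmon (by nlinarith)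
      have h6 := hstrict j1
      have h7 : ln (j1 + (c + 1) * e) = ln j1 := by
        simp only [hln]
        rw [h4]
      omega
    · exact ⟨j1, j2, rest, rfl⟩
  have hj1 := hlt j1 (by simp)
  have hsh : ∀ m, it h (N + m) w = it h (j1 + m) w ++
      (it h (j2 + m) w ++ (rest.map (fun j => it h (j + m) w)).flatten) := by
    intro m
    rw [rel_shift hrel m]
    simp
  have hdb : ∀ m, 2 * ln m ≤ ln (N + m) := by
    intro m
    have h1 : ln (N + m) = ln (j1 + m) + (ln (j2 + m) +
        ((rest.map (fun j => it h (j + m) w)).flatten).length) := by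
      simp only [hln]
      rw [hsh m, List.length_append, List.length_append]
    have h2 : ln m ≤ ln (j1 + m) := hmon (by omega)
    have h3 : ln m ≤ ln (j2 + m) := hmon (by omega)
    omega
  have hdbl : ∀ r m, 2 ^ r * ln m ≤ ln (r * N + m) := by
    intro r
    induction r with
    | zero => intro m; simp
    | succ r ih =>
      intro m
      have h1 := ih m
      have h2 := hdb (r * N + m)
      have h3 : (r + 1) * N + m = N + (r * N + m) := by ring
      rw [h3]
      calc 2 ^ (r + 1) * ln m = 2 * (2 ^ r * ln m) := by ring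
        _ ≤ 2 * ln (r * N + m) := Nat.mul_le_mul_left 2 h1
        _ ≤ _ := h2
  -- the class of the level
  set K0 := j1 + (e - 1) * j2 + e * j1 with hK0
  have hK0e : ∀ i, ∃ t, j2 + (K0 + e * i - j1) = e * t := by
    intro i
    refine ⟨j2 + j1 + i, ?_⟩
    obtain ⟨e', rfl⟩ : ∃ e', e = e' + 1 := ⟨e - 1, by omega⟩
    rw [hK0, Nat.add_sub_cancel]
    have h1 : j1 + e' * j2 + (e' + 1) * j1 + (e' + 1) * i - j1 =
        e' * j2 + (e' + 1) * j1 + (e' + 1) * i := by omega
    rw [h1]
    ring
  -- a level with a long quotient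
  obtain ⟨i0, hKlen⟩ : ∃ i, ln (K0 + e * i) + ln 0 ≤ ln (K0 + e * i + e) := by
    by_contra hc
    push Not at hc
    have h1 : ∀ i, ln (K0 + e * i) ≤ ln K0 + i * ln 0 := by
      intro i
      induction i with
      | zero => simp
      | succ i ih =>
        have h2 := hc i
        have h3 : (i + 1) * ln 0 = i * ln 0 + ln 0 := by ring
        rw [Nat.mul_succ, ← add_assoc, h3]
        omega
    set s := 2 * N + 1 with hs
    have h2 := hdbl (2 * s) K0
    have h3 := h1 (2 * s * N)
    have h3' : ln (2 * s * N + K0) ≤ ln (K0 + e * (2 * s * N)) := by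
      apply hmon
      nlinarith [Nat.le_mul_of_pos_left (2 * s * N) he]
    have h4 : ln 0 ≤ ln K0 := hmon (Nat.zero_le _)
    have h5 : 2 * s * N * ln 0 ≤ 2 * s * N * ln K0 := Nat.mul_le_mul_left _ h4
    have h6 : 2 ^ (2 * s) * ln K0 ≤ (1 + 2 * s * N) * ln K0 := by
      rw [add_mul, one_mul]
      omega
    have h7 := Nat.le_of_mul_le_mul_right h6 (hlnpos K0)
    have h8 : s < 2 ^ s := Nat.lt_two_pow_self
    have h9 : 2 ^ (2 * s) = 2 ^ s * 2 ^ s := by rw [← pow_add]; congr 1; ring
    have h10 : (s + 1) * (s + 1) ≤ 2 ^ s * 2 ^ s := Nat.mul_le_mul h8 h8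
    rw [h9] at h7
    nlinarith
  set K := K0 + e * i0 with hKdef
  have hK : j1 ≤ K := by omega
  obtain ⟨y, hy⟩ := pfxe_all hp K
  have hwy : w <+: y := by
    have h1 := hsh (K - j1)
    have h2 : j1 + (K - j1) = K := by omega
    rw [h2] at h1
    set g := it h (j2 + (K - j1)) w ++ (rest.map (fun j => it h (j + (K - j1)) w)).flatten
      with hg
    obtain ⟨c, hc⟩ : ∃ c, N = j1 + (c + 1) := ⟨N - j1 - 1, by omega⟩
    have hNK : N + (K - j1) = K + (c + 1) := by omega
    -- the chain with period `c + 1`
    have hch : ∀ t, it h K w <+: it h (K + (c + 1) * t) w ∧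
        it h (K + (c + 1)) w <+: it h (K + (c + 1) * (t + 1)) w := by
      intro t
      have hstep : ∀ i, K ≤ i → it h i w <+: it h (i + (c + 1)) w := by
        intro i hi
        have h5 := hsh (i - j1)
        have h6 : j1 + (i - j1) = i := by omega
        have h7 : N + (i - j1) = i + (c + 1) := by omega
        rw [h6, h7] at h5
        rw [h5]
        exact List.prefix_append _ _
      induction t with
      | zero => exact ⟨List.prefix_refl _, by simp⟩
      | succ t ih =>
        constructor
        · refine ih.1.trans ?_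
          have h9 := hstep (K + (c + 1) * t) (by omega)
          have h10 : K + (c + 1) * t + (c + 1) = K + (c + 1) * (t + 1) := by ring
          rwa [h10] at h9
        · refine ih.2.trans ?_
          have h9 := hstep (K + (c + 1) * (t + 1)) (by omega)
          have h10 : K + (c + 1) * (t + 1) + (c + 1) = K + (c + 1) * (t + 1 + 1) := by ring
          rwa [h10] at h9
    obtain ⟨e', he'⟩ : ∃ e', e = e' + 1 := ⟨e - 1, by omega⟩
    have h3 : it h (K + (c + 1)) w <+: it h (K + (c + 1) * e) w := by
      rw [he']
      exact (hch e').2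
    have h4 : it h (K + e) w <+: it h (K + (c + 1) * e) w := by
      have := pfxe_mul hp (K + e) c
      have h5 : K + e + e * c = K + (c + 1) * e := by ring
      rwa [h5] at this
    rw [← hNK, h1] at h3
    rw [← hy] at h4
    obtain ⟨z1, hz1⟩ := h3
    obtain ⟨z2, hz2⟩ := h4
    have h6 : g ++ z1 = y ++ z2 := by
      have h7 := hz1.trans hz2.symm
      simp only [List.append_assoc] at h7
      have h8 := List.append_cancel_left h7
      simpa only [hg, List.append_assoc] using h8
    have h8 : w <+: y ++ z2 := by
      rw [← h6]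
      obtain ⟨t, ht⟩ := hK0e i0
      have h9 : w <+: g := by
        rw [hg, ht]
        have h10 := pfxe_mul hp 0 t
        rw [Nat.zero_add, it_zero] at h10
        exact h10.trans (List.prefix_append _ _)
      exact h9.trans (List.prefix_append _ _)
    refine List.prefix_of_prefix_length_le h8 (List.prefix_append _ _) ?_
    have h6 : ln (K + e) = ln K + y.length := by
      simp only [hln]
      rw [← hy, List.length_append]
    have h7 : ln 0 = w.length := rfl
    omega
  refine dens_false_e (c := K) (e := e) hΛ hlt hrel hpos hmono hdb ?_ hno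
  intro t
  have h1 : it h K w ++ w <+: it h (K + e) w := by
    rw [← hy]
    exact (List.prefix_append_right_inj _).2 hwy
  have h2 := it_prefix (h := h) t h1
  rw [it_append, ← it_add, ← it_add] at h2
  have h3 : K + t = t + K := Nat.add_comm _ _
  rw [h3, add_assoc]
  exact h2

end OE

end D0L
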